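import Mathlib

/-!
# Strong shift equivalence over the nonnegative integers, through integer matrices

All moves are written for integer matrices with nonnegative entries; `toNat` transfers them.
-/

set_option autoImplicit false

namespace Pool.Agent.TH441.SSE2

open Matrix

/-- Entrywise nonnegative. -/
def NN {m n : ℕ} (A : Matrix (Fin m) (Fin n) ℤ) : Prop := ∀ i j, 0 ≤ A i j

/-- Square integer matrices with their sizes. -/
abbrev SqZ := Σ n : ℕ, Matrix (Fin n) (Fin n) ℤ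

/-- Elementary equivalence through entrywise nonnegative integer matrices. -/
def EZ (X Y : SqZ) : Prop :=
  ∃ (R : Matrix (Fin X.1) (Fin Y.1) ℤ) (S : Matrix (Fin Y.1) (Fin X.1) ℤ),
    NN R ∧ NN S ∧ X.2 = R * S ∧ Y.2 = S * R

/-- A chain of elementary equivalences (possibly empty). -/
def Q {n m : ℕ} (A : Matrix (Fin n) (Fin n) ℤ) (B : Matrix (Fin m) (Fin m) ℤ) : Prop :=
  Relation.ReflTransGen EZ ⟨n, A⟩ ⟨m, B⟩

lemma EZ.symm {X Y : SqZ} (h : EZ X Y) : EZ Y X := by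
  obtain ⟨R, S, hR, hS, h1, h2⟩ := h
  exact ⟨S, R, hS, hR, h2, h1⟩

lemma Q.refl {n : ℕ} (A : Matrix (Fin n) (Fin n) ℤ) : Q A A := Relation.ReflTransGen.refl

lemma Q.symm {n m : ℕ} {A : Matrix (Fin n) (Fin n) ℤ} {B : Matrix (Fin m) (Fin m) ℤ}
    (h : Q A B) : Q B A := by
  have key : ∀ {X Y : SqZ}, Relation.ReflTransGen EZ X Y → Relation.ReflTransGen EZ Y X := by
    intro X Y h
    induction h with
    | refl => exact Relation.ReflTransGen.refl
    | tail _ h2 ih => exact Relation.ReflTransGen.head h2.symm ih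
  exact key h

lemma Q.trans {n m k : ℕ} {A : Matrix (Fin n) (Fin n) ℤ} {B : Matrix (Fin m) (Fin m) ℤ}
    {C : Matrix (Fin k) (Fin k) ℤ} (h : Q A B) (h' : Q B C) : Q A C :=
  Relation.ReflTransGen.trans h h'

lemma Q.of_elem {n m : ℕ} {A : Matrix (Fin n) (Fin n) ℤ} {B : Matrix (Fin m) (Fin m) ℤ}
    (R : Matrix (Fin n) (Fin m) ℤ) (S : Matrix (Fin m) (Fin n) ℤ) (hR : NN R) (hS : NN S)
    (h1 : A = R * S) (h2 : B = S * R) : Q A B :=
  Relation.ReflTransGen.single ⟨R, S, hR, hS, h1, h2⟩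

/-- The main move: a decomposition `P = V U` is changed to `P = V' U'` with `V' = V F`,
`U = F U'`. -/
lemma Q.move {n m k : ℕ} (U : Matrix (Fin n) (Fin k) ℤ) (V : Matrix (Fin k) (Fin n) ℤ)
    (U' : Matrix (Fin m) (Fin k) ℤ) (V' : Matrix (Fin k) (Fin m) ℤ)
    (F : Matrix (Fin n) (Fin m) ℤ) (hF : NN F) (hS : NN (U' * V)) (h1 : U = F * U')
    (h2 : V' = V * F) : Q (U * V) (U' * V') := by
  refine Q.of_elem F (U' * V) hF hS ?_ ?_
  · rw [h1, Matrix.mul_assoc]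
  · rw [h2, Matrix.mul_assoc]

lemma EZ.transpose {X Y : SqZ} (h : EZ X Y) :
    EZ ⟨X.1, X.2ᵀ⟩ ⟨Y.1, Y.2ᵀ⟩ := by
  obtain ⟨R, S, hR, hS, h1, h2⟩ := h
  refine ⟨Sᵀ, Rᵀ, fun i j => hS j i, fun i j => hR j i, ?_, ?_⟩
  · simp only [h1, Matrix.transpose_mul]
  · simp only [h2, Matrix.transpose_mul]

lemma Q.transpose {n m : ℕ} {A : Matrix (Fin n) (Fin n) ℤ} {B : Matrix (Fin m) (Fin m) ℤ}
    (h : Q A B) : Q Aᵀ Bᵀ := by
  have key : ∀ {X Y : SqZ}, Relation.ReflTransGen EZ X Y →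
      Relation.ReflTransGen EZ ⟨X.1, X.2ᵀ⟩ ⟨Y.1, Y.2ᵀ⟩ := by
    intro X Y h
    induction h with
    | refl => exact Relation.ReflTransGen.refl
    | tail _ h2 ih => exact ih.tail h2.transpose
  exact key h

/-- Exchanging the two basis vectors of a nonnegative `2 × 2` matrix. -/
lemma Q.swap (a b c d : ℤ) (ha : 0 ≤ a) (hb : 0 ≤ b) (hc : 0 ≤ c) (hd : 0 ≤ d) :
    Q !![a, b; c, d] !![d, c; b, a] := by
  refine Q.of_elem (!![b, a; d, c]) (!![0, 1; 1, 0]) ?_ ?_ ?_ ?_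
  · intro i j; fin_cases i <;> fin_cases j <;> simp <;> assumption
  · intro i j; fin_cases i <;> fin_cases j <;> simp
  · ext i j; fin_cases i <;> fin_cases j <;> simp [Matrix.mul_apply, Fin.sum_univ_succ]
  · ext i j; fin_cases i <;> fin_cases j <;> simp [Matrix.mul_apply, Fin.sum_univ_succ]

end Pool.Agent.TH441.SSE2
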