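import Pool.Agent.TH441.SSE2.Basic

/-!
# Three-vector presentations of a `2 × 2` integer endomorphism and their moves

`P = [[-x, b], [c, y]]` (columns are the images of the basis vectors `g₁, g₂`).  For the cone
spanned by `(l, 1)` and `(-l, 1)` the dual vectors are `(-1, l), (0, 1), (1, l)`, and
`P = (s,t) ⊗ (-1,l) + (b + l x - 2 l s, y - l c - 2 l t) ⊗ (0,1) + (s - x, t + c) ⊗ (1,l)`.
-/

set_option autoImplicit false

namespace Pool.Agent.TH441.SSE2

open Matrix

/-- The vector `(v, w)` lies in the cone spanned by `(l, 1)` and `(-l, 1)`. -/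
def InH (l v w : ℤ) : Prop := 0 ≤ w ∧ -(l * w) ≤ v ∧ v ≤ l * w

/-- The dual vectors. -/
def Ur (l : ℤ) : Matrix (Fin 3) (Fin 2) ℤ := !![-1, l; 0, 1; 1, l]

/-- The three vectors of the presentation, as columns. -/
def Vc (x b c y l s t : ℤ) : Matrix (Fin 2) (Fin 3) ℤ :=
  !![s, b + l * x - 2 * l * s, s - x; t, y - l * c - 2 * l * t, t + c]

/-- The `3 × 3` presentation matrix. -/
def W (x b c y l s t : ℤ) : Matrix (Fin 3) (Fin 3) ℤ := Ur l * Vc x b c y l s t

/-- The matrix of `P` in the basis `g₁, g₂ - j g₁`. -/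
def K1 (x b c y j : ℤ) : Matrix (Fin 2) (Fin 2) ℤ :=
  !![j * c - x, b + j * (x + y) - j ^ 2 * c; c, y - j * c]

lemma move_add (x b c y l s t s' t' : ℤ) (hl : 0 ≤ l) (h1 : InH l s t) (h2 : InH l s' t')
    (h3 : InH l (b + l * x - 2 * l * (s + s')) (y - l * c - 2 * l * (t + t')))
    (h4 : InH l (s - x) (t + c)) :
    Q (W x b c y l (s + s') (t + t')) (W x b c y l s t) := by
  obtain ⟨h11, h12, h13⟩ := h1
  obtain ⟨h21, h22, h23⟩ := h2
  obtain ⟨h31, h32, h33⟩ := h3
  obtain ⟨h41, h42, h43⟩ := h4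
  have hNN : NN (Ur l * (!![s, s', b + l * x - 2 * l * (s + s'), s - x;
      t, t', y - l * c - 2 * l * (t + t'), t + c] : Matrix (Fin 2) (Fin 4) ℤ)) := by
    intro i j
    fin_cases i <;> fin_cases j <;>
      simp [Ur, Matrix.mul_apply, Fin.sum_univ_succ] <;> linarith
  have e1 : Q ((!![-1, l; 0, 2 * l; 0, 1; 1, l] : Matrix (Fin 4) (Fin 2) ℤ) *
      (!![s, s', b + l * x - 2 * l * (s + s'), s - x;
      t, t', y - l * c - 2 * l * (t + t'), t + c] : Matrix (Fin 2) (Fin 4) ℤ))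
      (W x b c y l (s + s') (t + t')) := by
    refine Q.move _ _ (Ur l) (Vc x b c y l (s + s') (t + t'))
      (!![1, 0, 0; 1, 0, 1; 0, 1, 0; 0, 0, 1]) ?_ hNN ?_ ?_
    · intro i j; fin_cases i <;> fin_cases j <;> simp
    · ext i j; fin_cases i <;> fin_cases j <;>
        simp [Ur, Matrix.mul_apply, Fin.sum_univ_succ] <;> ring
    · ext i j; fin_cases i <;> fin_cases j <;>
        simp [Vc, Matrix.mul_apply, Fin.sum_univ_succ] <;> ring
  have e2 : Q ((!![-1, l; 0, 2 * l; 0, 1; 1, l] : Matrix (Fin 4) (Fin 2) ℤ) *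
      (!![s, s', b + l * x - 2 * l * (s + s'), s - x;
      t, t', y - l * c - 2 * l * (t + t'), t + c] : Matrix (Fin 2) (Fin 4) ℤ))
      (W x b c y l s t) := by
    refine Q.move _ _ (Ur l) (Vc x b c y l s t)
      (!![1, 0, 0; 0, 2 * l, 0; 0, 1, 0; 0, 0, 1]) ?_ hNN ?_ ?_
    · intro i j; fin_cases i <;> fin_cases j <;> simp [hl]
    · ext i j; fin_cases i <;> fin_cases j <;>
        simp [Ur, Matrix.mul_apply, Fin.sum_univ_succ]
    · ext i j; fin_cases i <;> fin_cases j <;>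
        simp [Vc, Matrix.mul_apply, Fin.sum_univ_succ] <;> ring
  exact e1.symm.trans e2

lemma move_shrink (x b c y l m s t : ℤ) (hm : 0 ≤ m) (hml : m ≤ l) (h1 : InH m s t)
    (h3 : InH m (b + l * x - 2 * l * s) (y - l * c - 2 * l * t))
    (h4 : InH m (s - x) (t + c)) :
    Q (W x b c y l s t) (W x b c y m s t) := by
  obtain ⟨h11, h12, h13⟩ := h1
  obtain ⟨h31, h32, h33⟩ := h3
  obtain ⟨h41, h42, h43⟩ := h4
  refine Q.move (Ur l) (Vc x b c y l s t) (Ur m) (Vc x b c y m s t)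
      (!![1, l - m, 0; 0, 1, 0; 0, l - m, 1]) ?_ ?_ ?_ ?_
  · intro i j; fin_cases i <;> fin_cases j <;> simp <;> linarith
  · intro i j
    fin_cases i <;> fin_cases j <;>
      simp [Ur, Vc, Matrix.mul_apply, Fin.sum_univ_succ] <;> linarith
  · ext i j; fin_cases i <;> fin_cases j <;>
        simp [Ur, Matrix.mul_apply, Fin.sum_univ_succ]
  · ext i j; fin_cases i <;> fin_cases j <;>
        simp [Vc, Matrix.mul_apply, Fin.sum_univ_succ] <;> ring

lemma move_start (x b c y j : ℤ) (h1 : InH j (-x) c) (h2 : InH j (b + j * x) (y - j * c)) :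
    Q (K1 x b c y j) (W x b c y j 0 0) := by
  obtain ⟨h11, h12, h13⟩ := h1
  obtain ⟨h21, h22, h23⟩ := h2
  have e : K1 x b c y j = (!![1, j; 0, 1] : Matrix (Fin 2) (Fin 2) ℤ) *
      (!![-x, b + j * x; c, y - j * c] : Matrix (Fin 2) (Fin 2) ℤ) := by
    ext i k; fin_cases i <;> fin_cases k <;>
      simp [K1, Matrix.mul_apply, Fin.sum_univ_succ] <;> ring
  rw [e]
  refine Q.move _ _ (Ur j) (Vc x b c y j 0 0) (!![0, 0, 1; 0, 1, 0]) ?_ ?_ ?_ ?_
  · intro i j; fin_cases i <;> fin_cases j <;> simp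
  · intro i k
    fin_cases i <;> fin_cases k <;>
      simp [Ur, Matrix.mul_apply, Fin.sum_univ_succ] <;> linarith
  · ext i j; fin_cases i <;> fin_cases j <;>
        simp [Ur, Matrix.mul_apply, Fin.sum_univ_succ]
  · ext i j; fin_cases i <;> fin_cases j <;>
        simp [Vc, Matrix.mul_apply, Fin.sum_univ_succ]

end Pool.Agent.TH441.SSE2
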