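import Pool.Agent.TH441.SSE2.Fan

/-!
# Crossing lemmas at the middle cone `((1,1), (-1,1))`
-/

set_option autoImplicit false

namespace Pool.Agent.TH441.SSE2

open Matrix

/-- Exit to the cone `((0,1), (1,1))` when `x ≤ b`. -/
lemma exit_right (x b c y : ℤ) (hx : 1 ≤ x) (hc : 1 ≤ c) (hxb : x ≤ b)
    (hT : b + c ≤ y - x) :
    Q (W x b c y 1 ((x + 1) / 2) ((x + 1) / 2)) !![y - b, c + x + y - b; b, b - x] := by
  obtain ⟨A, hAdef⟩ : ∃ A, A = (x + 1) / 2 := ⟨_, rfl⟩
  rw [← hAdef]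
  have hA1 : x ≤ 2 * A := by omega
  have hA2 : 2 * A ≤ x + 1 := by omega
  have s1 : Q (W x b c y 1 x x) (W x b c y 1 A A) := by
    have h := move_add x b c y 1 A A (x - A) (x - A) (by norm_num)
      ⟨by linarith, by linarith, by linarith⟩ ⟨by linarith, by linarith, by linarith⟩
      ⟨by linarith, by linarith, by linarith⟩ ⟨by linarith, by linarith, by linarith⟩
    simpa using h
  have s2 : Q (W x b c y 1 x x) !![y - b, c + x + y - b; b, b - x] := by
    have e : (!![y - b, c + x + y - b; b, b - x] : Matrix (Fin 2) (Fin 2) ℤ) =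
        (!![-1, 1; 1, 0] : Matrix (Fin 2) (Fin 2) ℤ) *
        (!![b, b - x; y, y + c] : Matrix (Fin 2) (Fin 2) ℤ) := by
      ext i k; fin_cases i <;> fin_cases k <;>
        simp [Matrix.mul_apply, Fin.sum_univ_succ] <;> ring
    rw [e]
    refine Q.move (Ur 1) (Vc x b c y 1 x x) _ _ (!![1, 0; 1, 1; 1, 2]) ?_ ?_ ?_ ?_
    · intro i j; fin_cases i <;> fin_cases j <;> simp
    · intro i k
      fin_cases i <;> fin_cases k <;>
        simp [Vc, Matrix.mul_apply, Fin.sum_univ_succ] <;> linarith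
    · ext i j; fin_cases i <;> fin_cases j <;>
        simp [Ur, Matrix.mul_apply, Fin.sum_univ_succ]
    · ext i j; fin_cases i <;> fin_cases j <;>
        simp [Vc, Matrix.mul_apply, Fin.sum_univ_succ] <;> ring
  exact s1.symm.trans s2

/-- Exit to the cone `((0,1), (-1,1))` when `b ≤ -x`. -/
lemma exit_left (x b c y : ℤ) (hx : 1 ≤ x) (hc : 1 ≤ c) (hxb : b ≤ -x)
    (hT : -b + c + 2 * x + 2 ≤ y + x) :
    Q (W x b c y 1 ((x + 1) / 2) ((x + 1) / 2))
      !![y + b, y + b + x - c; -b, -b - x] := by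
  obtain ⟨A, hAdef⟩ : ∃ A, A = (x + 1) / 2 := ⟨_, rfl⟩
  rw [← hAdef]
  have hA1 : x ≤ 2 * A := by omega
  have hA2 : 2 * A ≤ x + 1 := by omega
  have s1 : Q (W x b c y 1 0 (2 * A)) (W x b c y 1 A A) := by
    have h := move_add x b c y 1 A A (-A) A (by norm_num)
      ⟨by linarith, by linarith, by linarith⟩ ⟨by linarith, by linarith, by linarith⟩
      ⟨by linarith, by linarith, by linarith⟩ ⟨by linarith, by linarith, by linarith⟩
    rw [show A + -A = 0 by ring, show A + A = 2 * A by ring] at h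
    exact h
  have s2 : Q (W x b c y 1 0 (2 * A)) !![y + b, y + b + x - c; -b, -b - x] := by
    have e : (!![y + b, y + b + x - c; -b, -b - x] : Matrix (Fin 2) (Fin 2) ℤ) =
        (!![1, 1; -1, 0] : Matrix (Fin 2) (Fin 2) ℤ) *
        (!![b, b + x; y, y - c] : Matrix (Fin 2) (Fin 2) ℤ) := by
      ext i k; fin_cases i <;> fin_cases k <;>
        simp [Matrix.mul_apply, Fin.sum_univ_succ] <;> ring
    rw [e]
    refine Q.move (Ur 1) (Vc x b c y 1 0 (2 * A)) _ _ (!![1, 2; 1, 1; 1, 0]) ?_ ?_ ?_ ?_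
    · intro i j; fin_cases i <;> fin_cases j <;> simp
    · intro i k
      fin_cases i <;> fin_cases k <;>
        simp [Vc, Matrix.mul_apply, Fin.sum_univ_succ] <;> linarith
    · ext i j; fin_cases i <;> fin_cases j <;>
        simp [Ur, Matrix.mul_apply, Fin.sum_univ_succ]
    · ext i j; fin_cases i <;> fin_cases j <;>
        simp [Vc, Matrix.mul_apply, Fin.sum_univ_succ] <;> ring
  exact s1.symm.trans s2

/-- Duality at the middle cone, both off-diagonal entries positive. -/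
lemma dual_pos (x b c y : ℤ) (hx : 1 ≤ x) (hb : 1 ≤ b) (hc : 1 ≤ c)
    (hT : b + c + 1 ≤ y - x) :
    Q (W x b c y 1 ((x + 1) / 2) ((x + 1) / 2)) (W x c b y 1 ((x + 1) / 2) ((x + 1) / 2))ᵀ := by
  obtain ⟨A, hAdef⟩ : ∃ A, A = (x + 1) / 2 := ⟨_, rfl⟩
  rw [← hAdef]
  have hA1 : x ≤ 2 * A := by omega
  have hA2 : 2 * A ≤ x + 1 := by omega
  have s1 : Q (W x b c y 1 A A) (W x b c y 1 (x - A) (x - A)) := by
    have h := move_add x b c y 1 (x - A) (x - A) (2 * A - x) (2 * A - x) (by norm_num)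
      ⟨by linarith, by linarith, by linarith⟩ ⟨by linarith, by linarith, by linarith⟩
      ⟨by linarith, by linarith, by linarith⟩ ⟨by linarith, by linarith, by linarith⟩
    rw [show x - A + (2 * A - x) = A by ring] at h
    exact h
  have s2 : Q (W x c b y 1 A A)ᵀ (W x b c y 1 (x - A) (x - A)) := by
    have e : (W x c b y 1 A A)ᵀ =
        (!![A, A; c + x - 2 * A, y - b - 2 * A; A - x, A + b] : Matrix (Fin 3) (Fin 2) ℤ) *
        (!![-1, 0, 1; 1, 1, 1] : Matrix (Fin 2) (Fin 3) ℤ) := by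
      ext i k; fin_cases i <;> fin_cases k <;>
        simp [W, Ur, Vc, Matrix.mul_apply, Fin.sum_univ_succ] <;> ring
    rw [e]
    refine Q.move _ _ (Ur 1) (Vc x b c y 1 (x - A) (x - A))
      (!![0, 0, A; 0, y - b - 2 * A - (c + x - 2 * A), c + x - 2 * A; x - A, 2 * A - x + b, 0])
      ?_ ?_ ?_ ?_
    · intro i j; fin_cases i <;> fin_cases j <;> simp <;> linarith
    · intro i k
      fin_cases i <;> fin_cases k <;>
        simp [Ur, Matrix.mul_apply, Fin.sum_univ_succ]
    · ext i j; fin_cases i <;> fin_cases j <;>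
        simp [Ur, Matrix.mul_apply, Fin.sum_univ_succ] <;> ring
    · ext i j; fin_cases i <;> fin_cases j <;>
        simp [Vc, Matrix.mul_apply, Fin.sum_univ_succ] <;> ring
  exact s1.trans s2.symm

/-- Duality at the middle cone, `b ≤ 0`. -/
lemma dual_neg (x b c y : ℤ) (hx : 1 ≤ x) (hb : b ≤ -1) (hc : 1 ≤ c)
    (hT : -b + c + 2 * x + 2 ≤ y) :
    Q (W x b c y 1 ((x + 1) / 2) ((x + 1) / 2))
      (W x (-c) (-b) y 1 ((x + 1) / 2) ((x + 1) / 2))ᵀ := by
  obtain ⟨A, hAdef⟩ : ∃ A, A = (x + 1) / 2 := ⟨_, rfl⟩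
  rw [← hAdef]
  have hA1 : x ≤ 2 * A := by omega
  have hA2 : 2 * A ≤ x + 1 := by omega
  have s2 : Q (W x (-c) (-b) y 1 A A)ᵀ (W x b c y 1 A A) := by
    have e : (W x (-c) (-b) y 1 A A)ᵀ =
        (!![-A, A; c + 2 * A - x, y + b - 2 * A; x - A, A - b] : Matrix (Fin 3) (Fin 2) ℤ) *
        (!![1, 0, -1; 1, 1, 1] : Matrix (Fin 2) (Fin 3) ℤ) := by
      ext i k; fin_cases i <;> fin_cases k <;>
        simp [W, Ur, Vc, Matrix.mul_apply, Fin.sum_univ_succ] <;> ring
    rw [e]
    refine Q.move _ _ (Ur 1) (Vc x b c y 1 A A)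
      (!![A, 0, 0; 0, y + b - 2 * A - (c + 2 * A - x), c + 2 * A - x;
          0, 2 * A - x - b, x - A])
      ?_ ?_ ?_ ?_
    · intro i j; fin_cases i <;> fin_cases j <;> simp <;> linarith
    · intro i k
      fin_cases i <;> fin_cases k <;>
        simp [Ur, Matrix.mul_apply, Fin.sum_univ_succ]
    · ext i j; fin_cases i <;> fin_cases j <;>
        simp [Ur, Matrix.mul_apply, Fin.sum_univ_succ] <;> ring
    · ext i j; fin_cases i <;> fin_cases j <;>
        simp [Vc, Matrix.mul_apply, Fin.sum_univ_succ] <;> ring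
  exact s2.symm

/-- Crossing 1. -/
lemma cross_one (x b c y i j : ℤ) (hx : 1 ≤ x) (hb : 1 ≤ b) (hc : 1 ≤ c)
    (hj : x ≤ j * c) (hj' : j * c < x + c) (hi : x ≤ i * b) (hi' : i * b < x + b)
    (h1 : b + c + 2 * x + 3 ≤ y - x) (h2 : 8 * x ≤ y - x) :
    Q (K1 x b c y j) (K1 x c b y i)ᵀ := by
  have e1 := fan x b c y j hx hc hj hj' (by rw [abs_of_nonneg (by linarith)]; linarith) h2
  have e2 := fan x c b y i hx hb hi hi' (by rw [abs_of_nonneg (by linarith)]; linarith) h2
  exact (e1.trans (dual_pos x b c y hx hb hc (by linarith))).trans e2.transpose.symm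

/-- Crossing 2, when `b` is not too large. -/
lemma cross_two_a (x b c y j : ℤ) (hx : 1 ≤ x) (hc : 1 ≤ c) (hxb : x ≤ b)
    (hj : x ≤ j * c) (hj' : j * c < x + c)
    (h1 : b + c + 2 * x + 3 ≤ y - x) (h2 : 8 * x ≤ y - x) :
    Q (K1 x b c y j) !![y - b, c + x + y - b; b, b - x] := by
  have e1 := fan x b c y j hx hc hj hj' (by rw [abs_of_nonneg (by linarith)]; linarith) h2
  exact e1.trans (exit_right x b c y hx hc hxb (by linarith))

/-- Crossing 2, when `b` is large. -/
lemma cross_two_b (x b c y j : ℤ) (hx : 1 ≤ x) (hc : 1 ≤ c) (hby : b ≤ y)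
    (hj : x ≤ j * c) (hj' : j * c < x + c)
    (h1 : 4 * x + 4 * c + 3 ≤ b) (h2 : 8 * (x + c) ≤ y - x) :
    Q (K1 x b c y j) !![y - b, c + x + y - b; b, b - x] := by
  have hK : K1 x b c y j = K1 (x + c) (b - x - y - c) c (y + c) (j + 1) := by
    ext i k; fin_cases i <;> fin_cases k <;> simp [K1] <;> ring
  rw [hK]
  have e1 := fan (x + c) (b - x - y - c) c (y + c) (j + 1) (by linarith) hc (by linarith)
    (by linarith) (by rw [abs_of_nonpos (by linarith)]; linarith) (by linarith)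
  have e2 := exit_left (x + c) (b - x - y - c) c (y + c) (by linarith) hc (by linarith)
    (by linarith)
  have e3 : (!![y + c + (b - x - y - c), y + c + (b - x - y - c) + (x + c) - c;
      -(b - x - y - c), -(b - x - y - c) - (x + c)] : Matrix (Fin 2) (Fin 2) ℤ) =
      !![b - x, b; c + x + y - b, y - b] := by
    ext i k; fin_cases i <;> fin_cases k <;> simp <;> ring
  rw [e3] at e2
  exact (e1.trans e2).trans (Q.swap _ _ _ _ (by linarith) (by linarith) (by linarith)
    (by linarith))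

/-- Crossing 3. -/
lemma cross_three (x b c y i j : ℤ) (hx : 1 ≤ x) (hc : 1 ≤ c) (hby : y < b)
    (hb' : b < c + x + y) (hj : x ≤ j * c) (hj' : j * c < x + c)
    (hi : b - y ≤ i * (c + x + y - b)) (hi' : i * (c + x + y - b) < b - y + (c + x + y - b))
    (h2 : 8 * (x + c) ≤ y - x) :
    Q (K1 x b c y j) (K1 (b - y) b (c + x + y - b) (b - x) i)ᵀ := by
  have hK : K1 x b c y j = K1 (x + c) (b - x - y - c) c (y + c) (j + 1) := by
    ext i k; fin_cases i <;> fin_cases k <;> simp [K1] <;> ring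
  have hK' : K1 (b - y) b (c + x + y - b) (b - x) i =
      K1 (x + c) (-c) (-(b - x - y - c)) (y + c) (i + 1) := by
    ext i k; fin_cases i <;> fin_cases k <;> simp [K1] <;> ring
  rw [hK, hK']
  have e1 := fan (x + c) (b - x - y - c) c (y + c) (j + 1) (by linarith) hc (by linarith)
    (by linarith) (by rw [abs_of_nonpos (by linarith)]; linarith) (by linarith)
  have e2 := fan (x + c) (-c) (-(b - x - y - c)) (y + c) (i + 1) (by linarith) (by linarith)
    (by linarith) (by linarith) (by rw [abs_of_nonpos (by linarith)]; linarith) (by linarith)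
  have e3 := dual_neg (x + c) (b - x - y - c) c (y + c) (by linarith) (by linarith) hc
    (by linarith)
  exact (e1.trans e3).trans e2.transpose.symm

end Pool.Agent.TH441.SSE2
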