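import Pool.Agent.TH441.SSE2.Config

/-!
# The fan lemma: from the unimodular cone `(g₁, g₂ - j g₁)` to the cone `((1,1), (-1,1))`
-/

set_option autoImplicit false

namespace Pool.Agent.TH441.SSE2

open Matrix

lemma InH.mono {l m v w : ℤ} (h : InH m v w) (hml : m ≤ l) : InH l v w := by
  obtain ⟨h1, h2, h3⟩ := h
  have : m * w ≤ l * w := mul_le_mul_of_nonneg_right hml h1
  exact ⟨h1, by linarith, by linarith⟩

lemma nonneg_of_mul {m w B : ℤ} (hm : 1 ≤ m) (hB : 0 ≤ B) (h : B ≤ m * w) : 0 ≤ w := by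
  by_contra hw
  push Not at hw
  nlinarith

lemma pos_of_mul {m w B : ℤ} (hm : 1 ≤ m) (hB : 1 ≤ B) (h : B ≤ m * w) : 1 ≤ w := by
  by_contra hw
  push Not at hw
  nlinarith

/-- Criterion used for the middle vector. -/
lemma InH.of_abs {m B v w l : ℤ} (hm : 1 ≤ m) (hv1 : v ≤ B + l) (hv2 : -(B + l) ≤ v)
    (_hB : 0 ≤ B) (_hl : 0 ≤ l) (h : B + l ≤ m * w) : InH m v w :=
  ⟨nonneg_of_mul hm (by linarith) h, by linarith, by linarith⟩

lemma le_of_ceil {m t u A : ℤ} (hm : 1 ≤ m) (ht : 1 ≤ t) (h5 : A ≤ m * t)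
    (h8 : (m + 1) * u ≤ A + m) : u ≤ t := by
  by_contra hneg
  push Not at hneg
  have : (m + 1) * (t + 1) ≤ (m + 1) * u := mul_le_mul_of_nonneg_left hneg (by linarith)
  linarith

lemma inH_shift {m A x t c : ℤ} (hm : 1 ≤ m) (hx : 1 ≤ x) (hc : 1 ≤ c) (ht : 0 ≤ t)
    (h1 : x ≤ 2 * A) (_h2 : 2 * A ≤ x + 1) (h5 : A ≤ m * t) : InH m (A - x) (t + c) := by
  have h : m * (t + c) = m * t + m * c := by ring
  have h' : 1 * 1 ≤ m * c := mul_le_mul hm hc (by norm_num) (by linarith)
  exact ⟨by linarith, by linarith, by linarith⟩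

lemma step_ineq (x b c y j m A t : ℤ) (hx : 1 ≤ x) (hc : 1 ≤ c) (hj' : j * c < x + c)
    (h1 : |b| + c + 2 * x + 3 ≤ y - x) (h2 : 8 * x ≤ y - x) (hA : 2 * A ≤ x + 1)
    (hm : 1 ≤ m) (hmj : m + 1 ≤ j) (ht : m * t ≤ A + m - 1) :
    |b| + (m + 1) ≤ m * (y - (m + 1) * c - 2 * (m + 1) * t) := by
  have hb := abs_nonneg b
  have e1 : (m + 1) * c ≤ j * c := mul_le_mul_of_nonneg_right hmj (by linarith)
  have e2 : (m + 1) * c ≤ x + c - 1 := by linarith
  have e3 : m * c ≤ x - 1 := by linarith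
  have e4 : m ≤ x - 1 := by nlinarith
  have e5 : 0 ≤ (m - 1) * (x - 1 - 2 * c) := by
    rcases eq_or_lt_of_le hm with h | h
    · rw [← h]; simp
    · have : 2 * c ≤ m * c := mul_le_mul_of_nonneg_right (by linarith) (by linarith)
      exact mul_nonneg (by linarith) (by linarith)
  have e6 : 0 ≤ (m - 1) * (x - 1 - m) := mul_nonneg (by linarith) (by linarith)
  have e7 : 0 ≤ (m - 1) * (y - x - 8 * x) := mul_nonneg (by linarith) (by linarith)
  have e8 : 0 ≤ (m + 1) * (A + m - 1 - m * t) := mul_nonneg (by linarith) (by linarith)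
  have e9 : 0 ≤ (m + 1) * (x + 1 - 2 * A) := mul_nonneg (by linarith) (by linarith)
  have e10 : 0 ≤ m * (x + c - 1 - (m + 1) * c) := mul_nonneg (by linarith) (by linarith)
  have e11 : 0 ≤ (m - 1) * x := mul_nonneg (by linarith) (by linarith)
  nlinarith

lemma start_ineq (x b c y j A t : ℤ) (hx : 1 ≤ x) (hc : 1 ≤ c) (hj' : j * c < x + c)
    (h1 : |b| + c + 2 * x + 3 ≤ y - x) (h2 : 8 * x ≤ y - x) (hA : 2 * A ≤ x + 1)
    (hj : 1 ≤ j) (ht : j * t ≤ A + j - 1) :
    |b| + j ≤ j * (y - j * c - 2 * j * t) := by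
  have hb := abs_nonneg b
  have e3 : (j - 1) * c ≤ x - 1 := by linarith
  have e4 : j ≤ x := by nlinarith
  have e8 : 0 ≤ j * (A + j - 1 - j * t) := mul_nonneg (by linarith) (by linarith)
  have e9 : 0 ≤ j * (x + 1 - 2 * A) := mul_nonneg (by linarith) (by linarith)
  have e10 : 0 ≤ j * (x + c - 1 - j * c) := mul_nonneg (by linarith) (by linarith)
  have e12 : 0 ≤ j * (x - j) := mul_nonneg (by linarith) (by linarith)
  have key : |b| + j ≤ j * (y - x - c - x + 2 - 2 * j) := by
    rcases eq_or_lt_of_le hj with h | h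
    · rw [← h]; linarith
    · have h2c : c ≤ x := by
        have : (2 - 1) * c ≤ (j - 1) * c := mul_le_mul_of_nonneg_right (by linarith) (by linarith)
        linarith
      have e13 : 0 ≤ (j - 2) * (y - x - c - 3 * x + 2) := mul_nonneg (by linarith) (by linarith)
      nlinarith
  nlinarith

/-- The fan lemma. -/
lemma fan (x b c y j : ℤ) (hx : 1 ≤ x) (hc : 1 ≤ c) (hj : x ≤ j * c) (hj' : j * c < x + c)
    (h1 : |b| + c + 2 * x + 3 ≤ y - x) (h2 : 8 * x ≤ y - x) :
    Q (K1 x b c y j) (W x b c y 1 ((x + 1) / 2) ((x + 1) / 2)) := by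
  obtain ⟨A, hAdef⟩ : ∃ A, A = (x + 1) / 2 := ⟨_, rfl⟩
  rw [← hAdef]
  have hA1 : x ≤ 2 * A := by omega
  have hA2 : 2 * A ≤ x + 1 := by omega
  have hb := abs_nonneg b
  have hbl := neg_abs_le b
  have hbu := le_abs_self b
  have hj1 : 1 ≤ j := by
    by_contra h
    push Not at h
    nlinarith
  -- the heights
  have hT : ∀ m : ℤ, 1 ≤ m → A ≤ m * ((A + m - 1) / m) ∧ m * ((A + m - 1) / m) ≤ A + m - 1 := by
    intro m hm
    have h3 := Int.emod_add_mul_ediv (A + m - 1) m
    have h4 := Int.emod_nonneg (A + m - 1) (show m ≠ 0 by linarith)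
    have h5 := Int.emod_lt_of_pos (A + m - 1) (show 0 < m by linarith)
    constructor <;> linarith
  have hx2 : ∀ l : ℤ, 0 ≤ l → b + l * x - 2 * l * A ≤ |b| + l ∧
      -(|b| + l) ≤ b + l * x - 2 * l * A := by
    intro l hl
    have e1 : 0 ≤ l * (2 * A - x) := mul_nonneg hl (by linarith)
    have e2 : 0 ≤ l * (x + 1 - 2 * A) := mul_nonneg hl (by linarith)
    constructor <;> linarith
  -- start
  have s1 : Q (K1 x b c y j) (W x b c y j 0 0) := by
    refine move_start x b c y j ⟨by linarith, by linarith, by linarith⟩ ?_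
    have e10 : 0 ≤ j * (x + c - 1 - j * c) := mul_nonneg (by linarith) (by linarith)
    have e11 : 0 ≤ j * (y - x - c - x) := mul_nonneg (by linarith) (by linarith)
    have e12 : 0 ≤ (j - 1) * (y - x - c - x) := mul_nonneg (by linarith) (by linarith)
    have e13 : 0 ≤ j * x := mul_nonneg (by linarith) (by linarith)
    exact InH.of_abs (B := |b|) (l := j * x) hj1 (by linarith) (by linarith) hb
      (by linarith) (by linarith)
  have s2 : Q (W x b c y j 0 0) (W x b c y j A ((A + j - 1) / j)) := by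
    have h := move_add x b c y j 0 0 A ((A + j - 1) / j) (by linarith)
      ⟨le_refl _, by simp, by simp⟩ ?_ ?_ ?_
    · simpa using h.symm
    · obtain ⟨h5, h6⟩ := hT j hj1
      exact ⟨nonneg_of_mul hj1 (by linarith) h5, by linarith, h5⟩
    · obtain ⟨h5, h6⟩ := hT j hj1
      have := start_ineq x b c y j A _ hx hc hj' h1 h2 hA2 hj1 h6
      have hh := hx2 j (by linarith)
      rw [zero_add, zero_add]
      exact InH.of_abs hj1 hh.1 hh.2 hb (by linarith) this
    · exact ⟨by linarith, by linarith, by linarith⟩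
  -- descent
  have key : ∀ n : ℕ, ∀ m : ℤ, 1 ≤ m → m + n = j →
      Q (K1 x b c y j) (W x b c y m A ((A + m - 1) / m)) := by
    intro n
    induction n with
    | zero =>
      intro m hm hmj
      have : m = j := by simpa using hmj
      rw [this]
      exact s1.trans s2
    | succ n ih =>
      intro m hm hmj
      push_cast at hmj
      have hlj : m + 1 ≤ j := by omega
      have h3 := ih (m + 1) (by linarith) (by linarith)
      obtain ⟨h5, h6⟩ := hT m hm
      obtain ⟨h7, h8⟩ := hT (m + 1) (by linarith)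
      obtain ⟨t, ht⟩ : ∃ t, t = (A + m - 1) / m := ⟨_, rfl⟩
      obtain ⟨u, hu⟩ : ∃ u, u = (A + (m + 1) - 1) / (m + 1) := ⟨_, rfl⟩
      rw [← ht] at h5 h6
      rw [← hu] at h7 h8 h3
      rw [← ht]
      have hApos : 1 ≤ A := by linarith
      have ht0 : 1 ≤ t := pos_of_mul hm hApos h5
      have hu0 : 1 ≤ u := pos_of_mul (by linarith) hApos h7
      have hut : u ≤ t := le_of_ceil hm ht0 h5 (by linarith)
      have hst := step_ineq x b c y j m A t hx hc hj' h1 h2 hA2 hm hlj h6
      have hh := hx2 (m + 1) (by linarith)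
      have hmid : InH m (b + (m + 1) * x - 2 * (m + 1) * A)
          (y - (m + 1) * c - 2 * (m + 1) * t) :=
        InH.of_abs hm hh.1 hh.2 hb (by linarith) hst
      have h9 : Q (W x b c y (m + 1) A t) (W x b c y (m + 1) A u) := by
        have hz : 0 ≤ (m + 1) * (t - u) := mul_nonneg (by linarith) (by linarith)
        have h := move_add x b c y (m + 1) A u 0 (t - u) (by linarith)
          ⟨by linarith, by linarith, h7⟩ ⟨by linarith, by linarith, hz⟩ ?_ ?_
        · simpa using h
        · rw [add_zero, add_sub_cancel]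
          exact hmid.mono (by linarith)
        · exact inH_shift (by linarith) hx hc (by linarith) hA1 hA2 h7
      have h10 : Q (W x b c y (m + 1) A t) (W x b c y m A t) := by
        exact move_shrink x b c y (m + 1) m A t (by linarith) (by linarith)
          ⟨by linarith, by linarith, h5⟩ hmid
          (inH_shift hm hx hc (by linarith) hA1 hA2 h5)
      exact (h3.trans h9.symm).trans h10
  have hfin := key (j - 1).toNat 1 le_rfl (by
    rw [Int.toNat_of_nonneg (by linarith)]; ring)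
  simpa using hfin

end Pool.Agent.TH441.SSE2
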