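import Pool.Agent.TH441.SSE2.Sign

/-!
# Similar nonnegative `2 × 2` matrices of small negative determinant
-/

set_option autoImplicit false

namespace Pool.Agent.TH441.SSE2

open Matrix

lemma rep_good (a b c d : ℤ) (ha : 0 ≤ a) (hd : 0 ≤ d) : rep a b c d = !![a, b; c, d] := by
  unfold rep
  rw [if_neg (by linarith), if_neg (by linarith)]

/-- `M U = U N`, `U` invertible over `ℤ`. -/
lemma similar_core (p q r s α β γ δ a b c d : ℤ)
    (hα : 0 ≤ α) (hβ : 0 < β) (hγ : 0 < γ) (hδ : 0 ≤ δ)
    (ha : 0 ≤ a) (hb : 0 < b) (hc : 0 < c) (hd : 0 ≤ d) (hT : 0 < α + δ)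
    (hD0 : 0 < β * γ - α * δ) (hD : 10 * (β * γ - α * δ) ≤ (α + δ) ^ 2)
    (hdet : p * s - q * r = 1 ∨ p * s - q * r = -1)
    (e1 : α * p + β * r = p * a + q * c) (e2 : α * q + β * s = p * b + q * d)
    (e3 : γ * p + δ * r = r * a + s * c) (e4 : γ * q + δ * s = r * b + s * d) :
    Q !![α, β; γ, δ] !![a, b; c, d] := by
  rw [← rep_good α β γ δ hα hδ, ← rep_good a b c d ha hd]
  have htr : α + δ = a + d := by
    have h : (α + δ) * (p * s - q * r) = (a + d) * (p * s - q * r) := by
      linear_combination s * e1 - r * e2 - q * e3 + p * e4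
    rcases hdet with h' | h' <;> rw [h'] at h <;> linarith
  have hdd : β * γ - α * δ = b * c - a * d := by
    have h : (α * δ - β * γ) * (p * s - q * r) = (a * d - b * c) * (p * s - q * r) := by
      have h5 : (α * p + β * r) * (γ * q + δ * s) - (α * q + β * s) * (γ * p + δ * r) =
        (p * a + q * c) * (r * b + s * d) - (p * b + q * d) * (r * a + s * c) := by
        rw [e1, e2, e3, e4]
      linear_combination h5
    rcases hdet with h' | h' <;> rw [h'] at h <;> linarith
  have hT2 : 0 < a + d := by rw [← htr]; exact hT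
  have hD02 : 0 < b * c - a * d := by rw [← hdd]; exact hD0
  have hD2 : 10 * (b * c - a * d) ≤ (a + d) ^ 2 := by rw [← hdd, ← htr]; exact hD
  -- the inverse intertwiner
  have f1 : a * s + b * (-r) = s * α + (-q) * γ := by
    have h : (a * s + b * (-r)) * (p * s - q * r) = (s * α + (-q) * γ) * (p * s - q * r) := by
      linear_combination (-(s ^ 2)) * e1 + s * r * e2 + s * q * e3 - q * r * e4
    rcases hdet with h' | h' <;> rw [h'] at h <;> linarith
  have f2 : a * (-q) + b * p = s * β + (-q) * δ := by
    have h : (a * (-q) + b * p) * (p * s - q * r) = (s * β + (-q) * δ) * (p * s - q * r) := by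
      linear_combination (s * q) * e1 - s * p * e2 - q ^ 2 * e3 + q * p * e4
    rcases hdet with h' | h' <;> rw [h'] at h <;> linarith
  have f3 : c * s + d * (-r) = (-r) * α + p * γ := by
    have h : (c * s + d * (-r)) * (p * s - q * r) = ((-r) * α + p * γ) * (p * s - q * r) := by
      linear_combination (r * s) * e1 - r ^ 2 * e2 - p * s * e3 + p * r * e4
    rcases hdet with h' | h' <;> rw [h'] at h <;> linarith
  have f4 : c * (-q) + d * p = (-r) * β + p * δ := by
    have h : (c * (-q) + d * p) * (p * s - q * r) = ((-r) * β + p * δ) * (p * s - q * r) := by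
      linear_combination (-(r * q)) * e1 + r * p * e2 + p * q * e3 - p ^ 2 * e4
    rcases hdet with h' | h' <;> rw [h'] at h <;> linarith
  have hdet' : s * p - -q * -r = 1 ∨ s * p - -q * -r = -1 := by
    have : s * p - -q * -r = p * s - q * r := by ring
    rw [this]; exact hdet
  rcases sign_cases p q r s α β γ δ a b c d hβ hγ hb hc hdet e1 e2 e3 e4 with
    ⟨h1, h2, h3, h4⟩ | ⟨h1, h2, h3, h4⟩ | ⟨h1, h2, h3, h4⟩ | ⟨h1, h2, h3, h4⟩
  · exact river (p + q + r + s).toNat p q r s α β γ δ a b c d h1 h2 h3 h4 hdet
      (Int.self_le_toNat _) hβ hγ hb hc hT hD0 hD e1 e2 e3 e4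
  · exact (river (s + -q + -r + p).toNat s (-q) (-r) p a b c d α β γ δ h4 (by linarith)
      (by linarith) h1 hdet' (Int.self_le_toNat _) hb hc hβ hγ hT2 hD02 hD2 f1 f2 f3 f4).symm
  · exact (river (-s + q + r + -p).toNat (-s) q r (-p) a b c d α β γ δ (by linarith) h2 h3
      (by linarith) (by
        have : -s * -p - q * r = p * s - q * r := by ring
        rw [this]; exact hdet) (Int.self_le_toNat _) hb hc hβ hγ hT2 hD02 hD2
        (by linear_combination -f1) (by linear_combination -f2)
        (by linear_combination -f3) (by linear_combination -f4)).symm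
  · exact river (-p + -q + -r + -s).toNat (-p) (-q) (-r) (-s) α β γ δ a b c d
      (by linarith) (by linarith) (by linarith) (by linarith) (by
        have : -p * -s - -q * -r = p * s - q * r := by ring
        rw [this]; exact hdet) (Int.self_le_toNat _) hβ hγ hb hc hT hD0 hD
        (by linear_combination -e1) (by linear_combination -e2)
        (by linear_combination -e3) (by linear_combination -e4)

end Pool.Agent.TH441.SSE2
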