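import Pool.Agent.TH441.SSE2.Cross

/-!
# Walking along the river
-/

set_option autoImplicit false

namespace Pool.Agent.TH441.SSE2

open Matrix

/-- Ceiling of `x / c`. -/
def cd (x c : ℤ) : ℤ := (x + c - 1) / c

lemma cd_spec (x c : ℤ) (hc : 1 ≤ c) : x ≤ cd x c * c ∧ cd x c * c < x + c := by
  have h3 := Int.emod_add_mul_ediv (x + c - 1) c
  have h4 := Int.emod_nonneg (x + c - 1) (show c ≠ 0 by linarith)
  have h5 := Int.emod_lt_of_pos (x + c - 1) (show 0 < c by linarith)
  have e : cd x c * c = c * ((x + c - 1) / c) := by rw [cd, mul_comm]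
  rw [e]
  constructor <;> linarith

lemma cd_eq (x c j : ℤ) (hc : 1 ≤ c) (h1 : x ≤ j * c) (h2 : j * c < x + c) : cd x c = j := by
  obtain ⟨h3, h4⟩ := cd_spec x c hc
  have h5 : (cd x c - j) * c < 1 * c := by linarith
  have h6 : (j - cd x c) * c < 1 * c := by linarith
  have h7 := lt_of_mul_lt_mul_right h5 (by linarith)
  have h8 := lt_of_mul_lt_mul_right h6 (by linarith)
  omega

/-- Representative for a matrix `[[-x, b], [c, y]]`. -/
def repL (x b c y : ℤ) : Matrix (Fin 2) (Fin 2) ℤ :=
  if c ≤ b then K1 x b c y (cd x c) else (K1 x c b y (cd x b))ᵀ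

/-- Representative, a nonnegative matrix, of an arbitrary matrix on the river. -/
def rep (α β γ δ : ℤ) : Matrix (Fin 2) (Fin 2) ℤ :=
  if α < 0 then repL (-α) β γ δ else if δ < 0 then repL (-δ) γ β α else !![α, β; γ, δ]

lemma rep_swap (α β γ δ : ℤ) (hβ : 0 < β) (hγ : 0 < γ) (hT : 0 < α + δ) :
    Q (rep α β γ δ) (rep δ γ β α) := by
  unfold rep
  by_cases h1 : α < 0
  · have h2 : ¬ δ < 0 := by linarith
    simp only [h1, h2, if_true, if_false]
    exact Q.refl _
  · by_cases h2 : δ < 0
    · simp only [h1, h2, if_true, if_false]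
      exact Q.refl _
    · simp only [h1, h2, if_false]
      exact Q.swap _ _ _ _ (by linarith) hβ.le hγ.le (by linarith)

/-- The dichotomy for the size of `b`. -/
lemma dich (T x b c : ℤ) (hT : 0 < T) (hx : 1 ≤ x) (hc : 1 ≤ c) (hcb : c ≤ b)
    (hD : 10 * (x * (T + x) + b * c) ≤ T ^ 2) (h : T < b + c + 2 * x + 3) :
    8 * (x + c) ≤ T := by
  have hx10 : 10 * x < T := by
    by_contra hneg
    push Not at hneg
    nlinarith
  by_contra hneg
  push Not at hneg
  have hb : T - c - 2 * x - 2 ≤ b := by linarith
  rcases le_or_gt (2 * c) (T - 2 * x - 2) with h1 | h1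
  · have e1 : 0 ≤ c * (b - (T - c - 2 * x - 2)) := mul_nonneg (by linarith) (by linarith)
    have e2 : 0 ≤ (8 * c - (T - 8 * x)) * (8 * (T - 2 * x - 2) - 8 * c - (T - 8 * x)) :=
      mul_nonneg (by linarith) (by linarith)
    nlinarith
  · have e1 : 0 ≤ (b - c) * c := mul_nonneg (by linarith) (by linarith)
    have e2 : (T - 2 * x - 1) * (T - 2 * x - 1) ≤ (2 * c) * (2 * c) :=
      mul_le_mul (by linarith) (by linarith) (by linarith) (by linarith)
    have e3 : (8 * T - 10) * (8 * T - 10) ≤ (10 * (T - 2 * x - 1)) * (10 * (T - 2 * x - 1)) :=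
      mul_le_mul (by linarith) (by linarith) (by linarith) (by linarith)
    nlinarith

/-- Crossing 2, with its two cases joined. -/
lemma cross_two (x b c y j : ℤ) (hT : 0 < y - x) (hx : 1 ≤ x) (hc : 1 ≤ c) (hcb : c ≤ b)
    (hxb : x ≤ b) (hby : b ≤ y) (hj : x ≤ j * c) (hj' : j * c < x + c)
    (hD : 10 * (x * y + b * c) ≤ (y - x) ^ 2) :
    Q (K1 x b c y j) !![y - b, c + x + y - b; b, b - x] := by
  have hbc : 0 ≤ b * c := mul_nonneg (by linarith) (by linarith)
  by_cases h : b + c + 2 * x + 3 ≤ y - x
  · refine cross_two_a x b c y j hx hc hxb hj hj' h ?_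
    by_contra hneg
    push Not at hneg
    nlinarith
  · push Not at h
    have hD' : 10 * (x * ((y - x) + x) + b * c) ≤ (y - x) ^ 2 := by
      rw [sub_add_cancel]; exact hD
    have h8 := dich (y - x) x b c hT hx hc hcb hD' h
    exact cross_two_b x b c y j hx hc hby hj hj' (by linarith) h8

lemma small_of_large (T x b c y : ℤ) (hT : 0 < T) (hy : y = T + x) (hx : 1 ≤ x) (hc : 1 ≤ c)
    (hb : T ≤ b) (hD : 10 * (x * y + b * c) ≤ T ^ 2) : 10 * (x + c) ≤ T := by
  subst hy
  by_contra hneg
  push Not at hneg
  have e1 : T * c ≤ b * c := mul_le_mul_of_nonneg_right hb (by linarith)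
  have e2 : 0 ≤ x * x := by positivity
  have e3 : T * (T + 1) ≤ T * (10 * (x + c)) := mul_le_mul_of_nonneg_left (by linarith) hT.le
  nlinarith

/-- One step along the river to the cone `(g₁, g₁ + g₂)`. -/
lemma edgeL (α β γ δ : ℤ) (hβ : 0 < β) (hγ : 0 < γ) (hβ' : 0 < α + β - γ - δ)
    (hT : 0 < α + δ) (hD0 : 0 < β * γ - α * δ)
    (hD : 10 * (β * γ - α * δ) ≤ (α + δ) ^ 2) :
    Q (rep α β γ δ) (rep (α - γ) (α + β - γ - δ) γ (γ + δ)) := by
  by_cases hα : α < 0
  · -- bad, same fan
    obtain ⟨x, hx⟩ : ∃ x, x = -α := ⟨_, rfl⟩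
    have hαx : α = -x := by linarith
    subst hαx
    have hx1 : 1 ≤ x := by omega
    have r1 : rep (-x) β γ δ = K1 x β γ δ (cd x γ) := by
      unfold rep repL
      rw [if_pos hα, neg_neg, if_pos (by linarith)]
    have hαγ : -x - γ < 0 := by linarith
    have e0 : cd (x + γ) γ = cd x γ + 1 := by
      obtain ⟨h3, h4⟩ := cd_spec x γ hγ
      exact cd_eq _ _ _ hγ (by linarith) (by linarith)
    have hK : K1 x β γ δ (cd x γ) = K1 (x + γ) (-x + β - γ - δ) γ (γ + δ) (cd x γ + 1) := by
      ext i k; fin_cases i <;> fin_cases k <;> simp [K1] <;> ring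
    rw [r1, hK]
    unfold rep repL
    rw [if_pos hαγ, show -(-x - γ) = x + γ by ring]
    by_cases hcb : γ ≤ -x + β - γ - δ
    · rw [if_pos hcb, e0]
      exact Q.refl _
    · rw [if_neg hcb]
      push Not at hcb
      have h10 : 10 * (x + γ) ≤ δ - x := small_of_large (δ - x) x β γ δ (by linarith)
        (by ring) hx1 hγ (by linarith) (by
          have : (δ - x) ^ 2 = (-x + δ) ^ 2 := by ring
          rw [this]; linarith)
      obtain ⟨h3, h4⟩ := cd_spec x γ hγ
      obtain ⟨h5, h6⟩ := cd_spec (x + γ) (-x + β - γ - δ) hβ'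
      exact cross_one (x + γ) (-x + β - γ - δ) γ (γ + δ) _ _ (by linarith) hβ' hγ
        (by linarith) (by linarith) h5 h6 (by linarith) (by linarith)
  · push Not at hα
    by_cases hδ : δ < 0
    · -- bad in the second vector
      obtain ⟨x, hx⟩ : ∃ x, x = -δ := ⟨_, rfl⟩
      have hδx : δ = -x := by linarith
      subst hδx
      have hx1 : 1 ≤ x := by omega
      have hT' : 0 < α - x := by linarith
      have hD' : 10 * (x * α + γ * β) ≤ (α - x) ^ 2 := by
        have : (α - x) ^ 2 = (α + -x) ^ 2 := by ring
        rw [this]; linarith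
      have hD1 : 10 * (x * α + γ * β) ≤ (α - x) ^ 2 := hD'
      have r1 : rep α β γ (-x) = repL x γ β α := by
        unfold rep
        rw [if_neg (by linarith), if_pos hδ, neg_neg]
      rw [r1]
      by_cases hyb : α - γ < 0
      · -- two adjacent barriers
        have h10 : 10 * (x + β) ≤ α - x := small_of_large (α - x) x γ β α hT'
          (by ring) hx1 hβ (by linarith) hD'
        have r2 : rep (α - γ) (α + β - γ - -x) γ (γ + -x) =
            (K1 (γ - α) γ (β + x + α - γ) (γ - x) (cd (γ - α) (β + x + α - γ)))ᵀ := by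
          unfold rep repL
          rw [if_pos hyb, if_neg (by linarith)]
          rw [show -(α - γ) = γ - α by ring, show α + β - γ - -x = β + x + α - γ by ring,
            show γ + -x = γ - x by ring]
        rw [r2]
        unfold repL
        rw [if_pos (by linarith)]
        obtain ⟨h3, h4⟩ := cd_spec x β hβ
        have hpos : 1 ≤ β + x + α - γ := by linarith
        obtain ⟨h5, h6⟩ := cd_spec (γ - α) (β + x + α - γ) hpos
        exact cross_three x γ β α _ _ hx1 hβ (by linarith) (by linarith) h3 h4 h5 h6
          (by linarith)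
      · push Not at hyb
        by_cases hbx : γ + -x < 0
        · -- still bad
          have r2 : rep (α - γ) (α + β - γ - -x) γ (γ + -x) =
              (K1 x β γ α (cd x γ))ᵀ := by
            unfold rep repL
            rw [if_neg (by linarith), if_pos hbx, if_neg (by linarith)]
            have e0 : cd (-(γ + -x)) γ = cd x γ - 1 := by
              obtain ⟨h3, h4⟩ := cd_spec x γ hγ
              exact cd_eq _ _ _ hγ (by linarith) (by linarith)
            rw [e0]
            congr 1
            ext i k; fin_cases i <;> fin_cases k <;> simp [K1] <;> ring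
          rw [r2]
          unfold repL
          by_cases hcb : β ≤ γ
          · rw [if_pos hcb]
            obtain ⟨h3, h4⟩ := cd_spec x β hβ
            obtain ⟨h5, h6⟩ := cd_spec x γ hγ
            have h10 : 10 * x < α - x := by
              by_contra hneg
              push Not at hneg
              have hbc : 0 < γ * β := mul_pos hγ hβ
              nlinarith
            exact cross_one x γ β α _ _ hx1 hγ hβ h3 h4 h5 h6 (by linarith) (by linarith)
          · rw [if_neg hcb]
            exact Q.refl _
        · push Not at hbx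
          have r2 : rep (α - γ) (α + β - γ - -x) γ (γ + -x) =
              !![α - γ, β + x + α - γ; γ, γ - x] := by
            unfold rep
            rw [if_neg (by linarith), if_neg (by linarith)]
            ext i k; fin_cases i <;> fin_cases k <;> simp <;> ring
          rw [r2]
          unfold repL
          by_cases hcb : β ≤ γ
          · rw [if_pos hcb]
            obtain ⟨h3, h4⟩ := cd_spec x β hβ
            exact cross_two x γ β α _ hT' hx1 hβ hcb (by linarith) (by linarith) h3 h4 hD'
          · rw [if_neg hcb]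
            have e0 : cd x γ = 1 := cd_eq _ _ _ hγ (by linarith) (by linarith)
            have e1 : (K1 x β γ α 1)ᵀ = !![γ - x, γ; β + x + α - γ, α - γ] := by
              ext i k; fin_cases i <;> fin_cases k <;> simp [K1] <;> ring
            rw [e0, e1]
            exact Q.swap _ _ _ _ (by linarith) hγ.le (by linarith) (by linarith)
    · push Not at hδ
      have r1 : rep α β γ δ = !![α, β; γ, δ] := by
        unfold rep
        rw [if_neg (by linarith), if_neg (by linarith)]
      rw [r1]
      by_cases hαγ : α - γ < 0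
      · have r2 : rep (α - γ) (α + β - γ - δ) γ (γ + δ) =
            repL (γ - α) (α + β - γ - δ) γ (γ + δ) := by
          unfold rep
          rw [if_pos hαγ, show -(α - γ) = γ - α by ring]
        rw [r2]
        unfold repL
        by_cases hcb : γ ≤ α + β - γ - δ
        · rw [if_pos hcb]
          have e0 : cd (γ - α) γ = 1 := cd_eq _ _ _ hγ (by linarith) (by linarith)
          have e1 : K1 (γ - α) (α + β - γ - δ) γ (γ + δ) 1 = !![α, β; γ, δ] := by
            ext i k; fin_cases i <;> fin_cases k <;> simp [K1] <;> ring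
          rw [e0, e1]
          exact Q.refl _
        · rw [if_neg hcb]
          push Not at hcb
          obtain ⟨h3, h4⟩ := cd_spec (γ - α) (α + β - γ - δ) hβ'
          have hq := cross_two (γ - α) γ (α + β - γ - δ) (γ + δ)
            (cd (γ - α) (α + β - γ - δ)) (by linarith) (by linarith) hβ' hcb.le (by linarith)
            (by linarith) h3 h4 (by
              have e1 : (γ - α) * (γ + δ) + γ * (α + β - γ - δ) = β * γ - α * δ := by ring
              have e2 : γ + δ - (γ - α) = α + δ := by ring
              rw [e1, e2]; exact hD)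
          have hq2 := hq.transpose
          have e3 : (!![γ + δ - γ, α + β - γ - δ + (γ - α) + (γ + δ) - γ; γ, γ - (γ - α)] :
              Matrix (Fin 2) (Fin 2) ℤ)ᵀ = !![δ, γ; β, α] := by
            ext i k; fin_cases i <;> fin_cases k <;> simp <;> ring
          rw [e3] at hq2
          exact (Q.swap α β γ δ hα hβ.le hγ.le hδ).trans hq2.symm
      · push Not at hαγ
        have r2 : rep (α - γ) (α + β - γ - δ) γ (γ + δ) =
            !![α - γ, α + β - γ - δ; γ, γ + δ] := by
          unfold rep
          rw [if_neg (by linarith), if_neg (by linarith)]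
        rw [r2]
        have hβδ : δ ≤ β := by
          by_contra hneg
          push Not at hneg
          nlinarith
        refine Q.of_elem (!![1, 1; 0, 1]) (!![α - γ, β - δ; γ, δ]) ?_ ?_ ?_ ?_
        · intro i j; fin_cases i <;> fin_cases j <;> simp
        · intro i j; fin_cases i <;> fin_cases j <;> simp <;> linarith
        · ext i j; fin_cases i <;> fin_cases j <;> simp [Matrix.mul_apply, Fin.sum_univ_succ]
        · ext i j; fin_cases i <;> fin_cases j <;>
            simp [Matrix.mul_apply, Fin.sum_univ_succ] <;> ring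

end Pool.Agent.TH441.SSE2
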