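import Pool.Agent.TH441.SSE2.Sim

/-!
# The change of basis or its inverse is nonnegative up to sign
-/

set_option autoImplicit false

namespace Pool.Agent.TH441.SSE2

open Matrix

lemma patt (p q r s : ℤ) (h1 : 0 < p ∨ 0 < q) (h2 : 0 < r ∨ 0 < s) (h3 : 0 < p ∨ 0 < r)
    (h4 : 0 < q ∨ 0 < s) (hdet : p * s - q * r = 1 ∨ p * s - q * r = -1) :
    (0 ≤ p ∧ 0 ≤ q ∧ 0 ≤ r ∧ 0 ≤ s) ∨ (0 ≤ p ∧ q ≤ 0 ∧ r ≤ 0 ∧ 0 ≤ s) ∨
      (p ≤ 0 ∧ 0 ≤ q ∧ 0 ≤ r ∧ s ≤ 0) := by
  rcases lt_or_ge p 0 with hp | hp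
  · have hq : 0 < q := by omega
    have hr : 0 < r := by omega
    right; right
    refine ⟨hp.le, hq.le, hr.le, ?_⟩
    by_contra hs
    push Not at hs
    have e1 : (-p) * s ≥ 1 * 1 := mul_le_mul (by linarith) (by linarith) (by norm_num)
      (by linarith)
    have e2 : q * r ≥ 1 * 1 := mul_le_mul (by linarith) (by linarith) (by norm_num)
      (by linarith)
    rcases hdet with h | h <;> linarith
  · rcases lt_or_ge q 0 with hq | hq
    · have hp' : 0 < p := by omega
      have hs : 0 < s := by omega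
      right; left
      refine ⟨hp, hq.le, ?_, hs.le⟩
      by_contra hr
      push Not at hr
      have e1 : p * s ≥ 1 * 1 := mul_le_mul (by linarith) (by linarith) (by norm_num)
        (by linarith)
      have e2 : (-q) * r ≥ 1 * 1 := mul_le_mul (by linarith) (by linarith) (by norm_num)
        (by linarith)
      rcases hdet with h | h <;> linarith
    · rcases lt_or_ge r 0 with hr | hr
      · have hp' : 0 < p := by omega
        have hs : 0 < s := by omega
        right; left
        refine ⟨hp, ?_, hr.le, hs.le⟩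
        by_contra hq'
        push Not at hq'
        have e1 : p * s ≥ 1 * 1 := mul_le_mul (by linarith) (by linarith) (by norm_num)
          (by linarith)
        have e2 : q * (-r) ≥ 1 * 1 := mul_le_mul (by linarith) (by linarith) (by norm_num)
          (by linarith)
        rcases hdet with h | h <;> linarith
      · rcases lt_or_ge s 0 with hs | hs
        · have hr' : 0 < r := by omega
          have hq' : 0 < q := by omega
          right; right
          refine ⟨?_, hq, hr, hs.le⟩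
          by_contra hp'
          push Not at hp'
          have e1 : p * (-s) ≥ 1 * 1 := mul_le_mul (by linarith) (by linarith) (by norm_num)
            (by linarith)
          have e2 : q * r ≥ 1 * 1 := mul_le_mul (by linarith) (by linarith) (by norm_num)
            (by linarith)
          rcases hdet with h | h <;> linarith
        · left; exact ⟨hp, hq, hr, hs⟩

lemma pos_or_of_real {p q : ℤ} {b c : ℝ} (hb : 0 < b) (hc : 0 < c)
    (h : 0 < (p : ℝ) * b + q * c) : 0 < p ∨ 0 < q := by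
  by_contra hneg
  push Not at hneg
  obtain ⟨h1, h2⟩ := hneg
  have h1' : (p : ℝ) ≤ 0 := by exact_mod_cast h1
  have h2' : (q : ℝ) ≤ 0 := by exact_mod_cast h2
  nlinarith

lemma pos_of_eq {u v X Y : ℝ} (hu : 0 < u) (hv : 0 < v) (h : u * Y = v * X) (hX : 0 < X) :
    0 < Y := by
  have h1 : 0 < u * Y := by rw [h]; exact mul_pos hv hX
  exact (mul_pos_iff_of_pos_left hu).mp h1

lemma pos_pair {c ta b g tal X Y Z1 Z2 : ℝ} (hc : 0 < c) (hta : 0 < ta) (hb : 0 < b)
    (hg : 0 < g) (htal : 0 < tal) (h : c * Z2 = ta * Z1)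
    (hlink : g * X + tal * Y = Z1 * b + Z2 * ta) (hX : 0 < X) (hY : 0 < Y) :
    0 < Z1 ∧ 0 < Z2 := by
  have h1 : 0 < Z1 := by
    by_contra hneg
    push Not at hneg
    have h2 : Z2 ≤ 0 := by
      by_contra h3
      push Not at h3
      have h4 : 0 < c * Z2 := mul_pos hc h3
      have h5 : ta * Z1 ≤ 0 := mul_nonpos_of_nonneg_of_nonpos hta.le hneg
      linarith
    have h6 : Z1 * b ≤ 0 := mul_nonpos_of_nonpos_of_nonneg hneg hb.le
    have h7 : Z2 * ta ≤ 0 := mul_nonpos_of_nonpos_of_nonneg h2 hta.le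
    have h8 := mul_pos hg hX
    have h9 := mul_pos htal hY
    linarith
  exact ⟨h1, pos_of_eq hc hta h h1⟩

/-- Positive case. -/
lemma sign_pos (p q r s : ℤ) (b c g β ta tal : ℝ) (hb : 0 < b) (hc : 0 < c) (hg : 0 < g)
    (hβ : 0 < β) (hta : 0 < ta) (htal : 0 < tal)
    (hdet : p * s - q * r = 1 ∨ p * s - q * r = -1)
    (hXY : β * (r * b + s * ta) = tal * (p * b + q * ta))
    (hZZ : c * (q * g + s * tal) = ta * (p * g + r * tal))
    (hpos : 0 < p * b + q * ta) :
    (0 ≤ p ∧ 0 ≤ q ∧ 0 ≤ r ∧ 0 ≤ s) ∨ (0 ≤ p ∧ q ≤ 0 ∧ r ≤ 0 ∧ 0 ≤ s) ∨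
      (p ≤ 0 ∧ 0 ≤ q ∧ 0 ≤ r ∧ s ≤ 0) := by
  have hY := pos_of_eq hβ htal hXY hpos
  have hZ := pos_pair hc hta hb hg htal hZZ
    (X := p * b + q * ta) (Y := r * b + s * ta) (by ring) hpos hY
  exact patt p q r s (pos_or_of_real hb hta hpos) (pos_or_of_real hb hta hY)
    (pos_or_of_real hg htal hZ.1) (pos_or_of_real hg htal hZ.2) hdet

lemma exists_root (T D : ℝ) (a d : ℝ) (h : a + d = T) (h' : 0 < D + a * d) :
    a < (T + √(T ^ 2 + 4 * D)) / 2 := by
  have h1 : (a - d) ^ 2 < T ^ 2 + 4 * D := by rw [← h]; nlinarith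
  have habs : |a - d| < √(T ^ 2 + 4 * D) := by
    apply Real.lt_sqrt_of_sq_lt
    rw [sq_abs]; exact h1
  linarith [le_abs_self (a - d), neg_abs_le (a - d)]

lemma root_char (T D : ℝ) (h : 0 ≤ T ^ 2 + 4 * D) :
    ((T + √(T ^ 2 + 4 * D)) / 2) ^ 2 = T * ((T + √(T ^ 2 + 4 * D)) / 2) + D := by
  have hsq := Real.sq_sqrt h
  nlinarith

/-- Sign analysis of an intertwiner between two nonnegative matrices of negative determinant. -/
lemma sign_cases (p q r s α β γ δ a b c d : ℤ) (hβ : 0 < β) (hγ : 0 < γ)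
    (hb : 0 < b) (hc : 0 < c)
    (hdet : p * s - q * r = 1 ∨ p * s - q * r = -1)
    (e1 : α * p + β * r = p * a + q * c) (e2 : α * q + β * s = p * b + q * d)
    (e3 : γ * p + δ * r = r * a + s * c) (e4 : γ * q + δ * s = r * b + s * d) :
    (0 ≤ p ∧ 0 ≤ q ∧ 0 ≤ r ∧ 0 ≤ s) ∨ (0 ≤ p ∧ q ≤ 0 ∧ r ≤ 0 ∧ 0 ≤ s) ∨
      (p ≤ 0 ∧ 0 ≤ q ∧ 0 ≤ r ∧ s ≤ 0) ∨ (p ≤ 0 ∧ q ≤ 0 ∧ r ≤ 0 ∧ s ≤ 0) := by
  have htr : α + δ = a + d := by
    have h : (α + δ) * (p * s - q * r) = (a + d) * (p * s - q * r) := by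
      linear_combination s * e1 - r * e2 - q * e3 + p * e4
    rcases hdet with h' | h' <;> rw [h'] at h <;> linarith
  have hdd : β * γ - α * δ = b * c - a * d := by
    have h : (α * δ - β * γ) * (p * s - q * r) = (a * d - b * c) * (p * s - q * r) := by
      have h5 : (α * p + β * r) * (γ * q + δ * s) - (α * q + β * s) * (γ * p + δ * r) =
        (p * a + q * c) * (r * b + s * d) - (p * b + q * d) * (r * a + s * c) := by
        rw [e1, e2, e3, e4]
      linear_combination h5
    rcases hdet with h' | h' <;> rw [h'] at h <;> linarith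
  have hbR : (0 : ℝ) < b := by exact_mod_cast hb
  have hcR : (0 : ℝ) < c := by exact_mod_cast hc
  have hβR : (0 : ℝ) < β := by exact_mod_cast hβ
  have hγR : (0 : ℝ) < γ := by exact_mod_cast hγ
  have htrR : (α : ℝ) + δ = a + d := by exact_mod_cast htr
  have hddR : (β : ℝ) * γ - α * δ = b * c - a * d := by exact_mod_cast hdd
  have hbc := mul_pos hbR hcR
  have hβγ := mul_pos hβR hγR
  have hta := exists_root (a + d) (b * c - a * d) a d rfl (by linarith)
  have hta' := exists_root (a + d) (b * c - a * d) α δ htrR (by linarith)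
  have hchar := root_char ((a : ℝ) + d) (b * c - a * d) (by nlinarith [sq_nonneg ((a : ℝ) - d)])
  obtain ⟨t, ht⟩ : ∃ t : ℝ, t = (((a : ℝ) + d) + √(((a : ℝ) + d) ^ 2 + 4 * (b * c - a * d))) / 2 :=
    ⟨_, rfl⟩
  rw [← ht] at hta hta' hchar
  have E1 : (α : ℝ) * p + β * r = p * a + q * c := by exact_mod_cast e1
  have E2 : (α : ℝ) * q + β * s = p * b + q * d := by exact_mod_cast e2
  have E3 : (γ : ℝ) * p + δ * r = r * a + s * c := by exact_mod_cast e3
  have hXY : (β : ℝ) * (r * b + s * (t - a)) = (t - α) * (p * b + q * (t - a)) := by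
    linear_combination (b : ℝ) * E1 + (t - a) * E2 - (q : ℝ) * hchar
  have hZZ : (c : ℝ) * (q * γ + s * (t - α)) = (t - a) * (p * γ + r * (t - α)) := by
    linear_combination (-(γ : ℝ)) * E1 - (t - α) * E3 - (r : ℝ) * hchar +
      (r : ℝ) * hddR + (r : ℝ) * t * htrR
  have hta0 : 0 < t - a := by linarith
  have hta0' : 0 < t - α := by linarith
  have hXne : (p : ℝ) * b + q * (t - a) ≠ 0 := by
    intro h0
    have hY0 : (r : ℝ) * b + s * (t - a) = 0 := by
      have : (β : ℝ) * (r * b + s * (t - a)) = 0 := by rw [hXY, h0, mul_zero]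
      rcases mul_eq_zero.mp this with h | h
      · exact absurd h hβR.ne'
      · exact h
    have h5 : ((p : ℝ) * s - q * r) * b = 0 := by
      linear_combination (s : ℝ) * h0 - (q : ℝ) * hY0
    have h6 : ((p : ℝ) * s - q * r) ≠ 0 := by
      rcases hdet with h | h
      · have : ((p : ℝ) * s - q * r) = 1 := by exact_mod_cast h
        rw [this]; norm_num
      · have : ((p : ℝ) * s - q * r) = -1 := by exact_mod_cast h
        rw [this]; norm_num
    rcases mul_eq_zero.mp h5 with h | h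
    · exact h6 h
    · exact hbR.ne' h
  rcases lt_or_gt_of_ne hXne with hneg | hpos
  · rcases sign_pos (-p) (-q) (-r) (-s) b c γ β (t - a) (t - α) hbR hcR hγR hβR hta0 hta0'
      (by
        have : -p * -s - -q * -r = p * s - q * r := by ring
        rw [this]; exact hdet)
      (by push_cast; linear_combination -hXY) (by push_cast; linear_combination -hZZ)
      (by push_cast; linarith) with h | h | h
    · right; right; right; omega
    · right; right; left; omega
    · right; left; omega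
  · rcases sign_pos p q r s b c γ β (t - a) (t - α) hbR hcR hγR hβR hta0 hta0' hdet
      hXY hZZ hpos with h | h | h
    · left; exact h
    · right; left; exact h
    · right; right; left; exact h

end Pool.Agent.TH441.SSE2
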