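import Pool.Agent.TH441.SSE2.River

/-!
# Similar matrices
-/

set_option autoImplicit false

namespace Pool.Agent.TH441.SSE2

open Matrix

lemma edgeR (α β γ δ : ℤ) (hβ : 0 < β) (hγ : 0 < γ) (hγ' : 0 < γ + δ - α - β)
    (hT : 0 < α + δ) (hD0 : 0 < β * γ - α * δ)
    (hD : 10 * (β * γ - α * δ) ≤ (α + δ) ^ 2) :
    Q (rep α β γ δ) (rep (α + β) β (γ + δ - α - β) (δ - β)) := by
  have h1 := rep_swap α β γ δ hβ hγ hT
  have h2 := edgeL δ γ β α hγ hβ (by linarith) (by linarith) (by linarith) (by
    have : (δ + α) ^ 2 = (α + δ) ^ 2 := by ring
    rw [this]; linarith)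
  have h3 := rep_swap (δ - β) (δ + γ - β - α) β (β + α) (by linarith) hβ (by linarith)
  have e : rep (β + α) β (δ + γ - β - α) (δ - β) =
      rep (α + β) β (γ + δ - α - β) (δ - β) := by
    rw [add_comm β α, show δ + γ - β - α = γ + δ - α - β by ring]
  rw [← e]
  exact (h1.trans h2).trans h3

/-- Climbing: off the river, no sub-cone is on the river. -/
lemma climb (p q r s α β γ δ a b c d : ℤ) (hp : 0 ≤ p) (hq : 0 ≤ q) (hr : 0 ≤ r) (hs : 0 ≤ s)
    (hdet : p * s - q * r = 1 ∨ p * s - q * r = -1) (hγ : 0 < γ) (hb : 0 < b) (hc : 0 < c)
    (hβ : β ≤ 0) (hαδ : α ≤ δ)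
    (e1 : α * p + β * r = p * a + q * c) (e2 : α * q + β * s = p * b + q * d)
    (e3 : γ * p + δ * r = r * a + s * c) (e4 : γ * q + δ * s = r * b + s * d) : False := by
  have f1 : 0 ≤ γ * (p * p) + (δ - α) * (p * r) + (-β) * (r * r) :=
    add_nonneg (add_nonneg (mul_nonneg hγ.le (mul_self_nonneg p))
      (mul_nonneg (by linarith) (mul_nonneg hp hr)))
      (mul_nonneg (by linarith) (mul_self_nonneg r))
  have f2 : 0 ≤ γ * (q * q) + (δ - α) * (q * s) + (-β) * (s * s) :=
    add_nonneg (add_nonneg (mul_nonneg hγ.le (mul_self_nonneg q))
      (mul_nonneg (by linarith) (mul_nonneg hq hs)))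
      (mul_nonneg (by linarith) (mul_self_nonneg s))
  have g1 : γ * (p * p) + (δ - α) * (p * r) + (-β) * (r * r) = (p * s - q * r) * c := by
    linear_combination p * e3 - r * e1
  have g2 : γ * (q * q) + (δ - α) * (q * s) + (-β) * (s * s) = -(p * s - q * r) * b := by
    linear_combination q * e4 - s * e2
  rw [g1] at f1
  rw [g2] at f2
  rcases hdet with h | h <;> rw [h] at f1 f2 <;> linarith

lemma perm_case (p q r s : ℤ) (hp : 0 ≤ p) (hq : 0 ≤ q) (hr : 0 ≤ r) (_hs : 0 ≤ s)
    (hdet : p * s - q * r = 1 ∨ p * s - q * r = -1) (h1 : r + 1 ≤ p) (h2 : q + 1 ≤ s) :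
    p = 1 ∧ q = 0 ∧ r = 0 ∧ s = 1 := by
  have h3 : (r + 1) * (q + 1) ≤ p * s := mul_le_mul h1 h2 (by linarith) hp
  have h4 : (r + 1) * (q + 1) = q * r + q + r + 1 := by ring
  have h5 : q + r ≤ 0 := by rcases hdet with h | h <;> linarith
  have hq0 : q = 0 := by linarith
  have hr0 : r = 0 := by linarith
  subst hq0; subst hr0
  have hps : p * s = 1 := by
    rcases hdet with h | h
    · linarith
    · linarith
  rcases Int.mul_eq_one_iff_eq_one_or_neg_one.mp hps with ⟨h, h'⟩ | ⟨h, h'⟩
  · exact ⟨h, rfl, rfl, h'⟩
  · exact absurd h (by linarith)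

lemma river (n : ℕ) : ∀ (p q r s α β γ δ a b c d : ℤ), 0 ≤ p → 0 ≤ q → 0 ≤ r → 0 ≤ s →
    (p * s - q * r = 1 ∨ p * s - q * r = -1) → p + q + r + s ≤ n →
    0 < β → 0 < γ → 0 < b → 0 < c → 0 < α + δ → 0 < β * γ - α * δ →
    10 * (β * γ - α * δ) ≤ (α + δ) ^ 2 →
    α * p + β * r = p * a + q * c → α * q + β * s = p * b + q * d →
    γ * p + δ * r = r * a + s * c → γ * q + δ * s = r * b + s * d →
    Q (rep α β γ δ) (rep a b c d) := by
  induction n with
  | zero =>
    intro p q r s α β γ δ a b c d hp hq hr hs hdet hn
    have h1 : p = 0 := by push_cast at hn; linarith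
    have h2 : q = 0 := by push_cast at hn; linarith
    subst h1; subst h2
    simp at hdet
  | succ n ih =>
    intro p q r s α β γ δ a b c d hp hq hr hs hdet hn hβ hγ hb hc hT hD0 hD e1 e2 e3 e4
    push_cast at hn
    by_cases hrow1 : r ≤ p ∧ s ≤ q
    · -- first row dominates
      obtain ⟨h1, h2⟩ := hrow1
      have hβ' : 0 < α + β - γ - δ := by
        by_contra hneg
        push Not at hneg
        exact climb (p - r) (q - s) r s (α - γ) (α + β - γ - δ) γ (γ + δ) a b c d
          (by linarith) (by linarith) hr hs (by
            have : (p - r) * s - (q - s) * r = p * s - q * r := by ring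
            rw [this]; exact hdet) hγ hb hc hneg (by linarith)
          (by linear_combination e1 - e3) (by linear_combination e2 - e4)
          (by linear_combination e3) (by linear_combination e4)
      have hrs : 1 ≤ r + s := by
        by_contra hneg
        push Not at hneg
        have h3 : r = 0 := by linarith
        have h4 : s = 0 := by linarith
        subst h3; subst h4
        simp at hdet
      have hE := edgeL α β γ δ hβ hγ hβ' hT hD0 hD
      refine hE.trans (ih (p - r) (q - s) r s (α - γ) (α + β - γ - δ) γ (γ + δ) a b c d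
          (by linarith) (by linarith) hr hs (by
            have : (p - r) * s - (q - s) * r = p * s - q * r := by ring
            rw [this]; exact hdet) (by linarith) hβ' hγ hb hc (by linarith) ?_ ?_
          (by linear_combination e1 - e3) (by linear_combination e2 - e4)
          (by linear_combination e3) (by linear_combination e4))
      · have : (α + β - γ - δ) * γ - (α - γ) * (γ + δ) = β * γ - α * δ := by ring
        rw [this]; exact hD0
      · have h5 : (α + β - γ - δ) * γ - (α - γ) * (γ + δ) = β * γ - α * δ := by ring
        have h6 : α - γ + (γ + δ) = α + δ := by ring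
        rw [h5, h6]; exact hD
    · by_cases hrow2 : p ≤ r ∧ q ≤ s
      · obtain ⟨h1, h2⟩ := hrow2
        have hγ' : 0 < γ + δ - α - β := by
          by_contra hneg
          push Not at hneg
          exact climb (s - q) (r - p) q p (δ - β) (γ + δ - α - β) β (α + β) d c b a
            (by linarith) (by linarith) hq hp (by
              have : (s - q) * p - (r - p) * q = p * s - q * r := by ring
              rw [this]; exact hdet) hβ hc hb hneg (by linarith)
            (by linear_combination e4 - e2) (by linear_combination e3 - e1)
            (by linear_combination e2) (by linear_combination e1)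
        have hrs : 1 ≤ p + q := by
          by_contra hneg
          push Not at hneg
          have h3 : p = 0 := by linarith
          have h4 : q = 0 := by linarith
          subst h3; subst h4
          simp at hdet
        have hE := edgeR α β γ δ hβ hγ hγ' hT hD0 hD
        refine hE.trans (ih p q (r - p) (s - q) (α + β) β (γ + δ - α - β) (δ - β) a b c d
            hp hq (by linarith) (by linarith) (by
              have : p * (s - q) - q * (r - p) = p * s - q * r := by ring
              rw [this]; exact hdet) (by linarith) hβ hγ' hb hc (by linarith) ?_ ?_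
            (by linear_combination e1) (by linear_combination e2)
            (by linear_combination e3 - e1) (by linear_combination e4 - e2))
        · have : β * (γ + δ - α - β) - (α + β) * (δ - β) = β * γ - α * δ := by ring
          rw [this]; exact hD0
        · have h5 : β * (γ + δ - α - β) - (α + β) * (δ - β) = β * γ - α * δ := by ring
          have h6 : α + β + (δ - β) = α + δ := by ring
          rw [h5, h6]; exact hD
      · -- permutation matrices
        have hcase : (r + 1 ≤ p ∧ q + 1 ≤ s) ∨ (p + 1 ≤ r ∧ s + 1 ≤ q) := by omega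
        rcases hcase with ⟨h1, h2⟩ | ⟨h1, h2⟩
        · obtain ⟨j1, j2, j3, j4⟩ := perm_case p q r s hp hq hr hs hdet h1 h2
          subst j1; subst j2; subst j3; subst j4
          have i1 : α = a := by linarith
          have i2 : β = b := by linarith
          have i3 : γ = c := by linarith
          have i4 : δ = d := by linarith
          rw [i1, i2, i3, i4]
          exact Q.refl _
        · obtain ⟨j1, j2, j3, j4⟩ := perm_case r s p q hr hs hp hq (by
            have : r * q - s * p = -(p * s - q * r) := by ring
            rw [this]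
            rcases hdet with h | h
            · right; rw [h]
            · left; rw [h]; norm_num) h1 h2
          subst j1; subst j2; subst j3; subst j4
          have i1 : δ = a := by linarith
          have i2 : γ = b := by linarith
          have i3 : β = c := by linarith
          have i4 : α = d := by linarith
          rw [← i1, ← i2, ← i3, ← i4]
          exact rep_swap α β γ δ hβ hγ hT

end Pool.Agent.TH441.SSE2
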