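import Pool.Agent.TH441.SSE2.Final

/-!
# Transfer from nonnegative integer matrices to matrices over `ℕ`
-/

set_option autoImplicit false

namespace Pool.Agent.TH441.SSE2

open Matrix

lemma mul_map_toNat {n m k : ℕ} (R : Matrix (Fin n) (Fin m) ℤ) (S : Matrix (Fin m) (Fin k) ℤ)
    (hR : NN R) (hS : NN S) :
    (R * S).map Int.toNat = R.map Int.toNat * S.map Int.toNat := by
  ext i j
  have h1 : 0 ≤ (R * S) i j := by
    rw [Matrix.mul_apply]
    exact Finset.sum_nonneg fun l _ => mul_nonneg (hR i l) (hS l j)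
  have h2 : (((R * S).map Int.toNat i j : ℕ) : ℤ) =
      (((R.map Int.toNat * S.map Int.toNat) i j : ℕ) : ℤ) := by
    rw [Matrix.map_apply, Int.toNat_of_nonneg h1, Matrix.mul_apply, Matrix.mul_apply]
    push_cast
    refine Finset.sum_congr rfl fun l _ => ?_
    rw [Matrix.map_apply, Matrix.map_apply, Int.toNat_of_nonneg (hR i l),
      Int.toNat_of_nonneg (hS l j)]
  exact_mod_cast h2

/-- The corresponding matrix over `ℕ`. -/
def toN (X : SqZ) : Σ n : ℕ, Matrix (Fin n) (Fin n) ℕ := ⟨X.1, X.2.map Int.toNat⟩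

lemma chain_toN {r : (Σ n : ℕ, Matrix (Fin n) (Fin n) ℕ) → (Σ n : ℕ, Matrix (Fin n) (Fin n) ℕ) →
    Prop}
    (hr : ∀ (n m : ℕ) (R : Matrix (Fin n) (Fin m) ℕ) (S : Matrix (Fin m) (Fin n) ℕ),
      r ⟨n, R * S⟩ ⟨m, S * R⟩) {X Y : SqZ} (h : Relation.ReflTransGen EZ X Y) :
    Relation.ReflTransGen r (toN X) (toN Y) := by
  induction h with
  | refl => exact Relation.ReflTransGen.refl
  | @tail Y Z _ h2 ih =>
    refine ih.tail ?_
    obtain ⟨R, S, hR, hS, h3, h4⟩ := h2
    have e1 : toN Y = ⟨Y.1, R.map Int.toNat * S.map Int.toNat⟩ := by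
      unfold toN
      rw [h3, mul_map_toNat R S hR hS]
    have e2 : toN Z = ⟨Z.1, S.map Int.toNat * R.map Int.toNat⟩ := by
      unfold toN
      rw [h4, mul_map_toNat S R hS hR]
    rw [e1, e2]
    exact hr _ _ _ _

end Pool.Agent.TH441.SSE2
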